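import Mathlib

/-!
# Countable spread of `C_p(X)` under Martin's Axiom

We prove: under `MA + ¬CH`, if `X` is a Tychonoff space and `C_p(X)` has countable spread, then
`X` is separable, in fact hereditarily separable.  This answers Q1 of the problem positively.

Idea of the proof.  If some `Y ⊆ X` is not separable, choose `x i ∈ Y` (`i < ω₁`) with
`x i` outside the closure of `{x j : j < i}` and continuous `F i : X → [0,1]` with `F i (x i) = 1`
and `F i (x j) = 0` for `j < i`.  Let `P` be the poset of finite `p ⊆ ω₁` with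
`F i (x j) ≤ 1/2` for `i < j` in `p`.  If `P` is ccc then Martin's Axiom gives an uncountable `J`
such that `{F i : i ∈ J}` is discrete in `C_p(X)`.  If `P` is not ccc, there are blocks
`p ξ` (`ξ < ω₁`) of the same size `n`, increasing in `ξ`, with `F i (x j) > 1/2` for some
`i ∈ p ξ`, `j ∈ p η` whenever `ξ < η`.  With `S ξ = ∑ i ∈ p ξ, F i`, the functions
`S ξ - 4 n S (ξ + 1)` form an uncountable discrete subset of `C_p(X)`.
-/

open Cardinal Set TopologicalSpace

namespace Pool.Agent.Results.MP_81e7df_gt.HereditarySep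

universe u

/-! ### Definitions used in the statement -/

/-- Two elements of a preorder are compatible if they have a common lower bound. -/
def Compatible {P : Type} [Preorder P] (p q : P) : Prop := ∃ r, r ≤ p ∧ r ≤ q

/-- The countable chain condition: every set of pairwise incompatible elements is countable. -/
def CCC (P : Type) [Preorder P] : Prop :=
  ∀ A : Set P, (∀ p ∈ A, ∀ q ∈ A, p ≠ q → ¬ Compatible p q) → A.Countable

/-- A subset of a poset is dense if every element has an extension (a smaller element) in it. -/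
def IsDenseSet {P : Type} [Preorder P] (D : Set P) : Prop := ∀ p, ∃ q ∈ D, q ≤ p

/-- `MA(κ)`: for every nonempty ccc poset and every family of at most `κ` dense subsets
there is a filter meeting all of them. -/
def MAFor (κ : Cardinal.{0}) : Prop :=
  ∀ (P : Type) [PartialOrder P] [Nonempty P], CCC P →
    ∀ 𝒟 : Set (Set P), #𝒟 ≤ κ → (∀ D ∈ 𝒟, IsDenseSet D) →
      ∃ G : Order.PFilter P, ∀ D ∈ 𝒟, ∃ p ∈ G, p ∈ D

/-- Martin's Axiom: `MA(κ)` for all `κ < 2^ℵ₀`. -/
def MartinsAxiom : Prop := ∀ κ : Cardinal.{0}, κ < 𝔠 → MAFor κ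

/-- `C_p(X)`: the continuous real functions on `X` with the topology of pointwise convergence,
that is, the subspace topology inherited from the product `ℝ^X`. -/
abbrev Cp (X : Type u) [TopologicalSpace X] : Type u := {f : X → ℝ // Continuous f}

/-- The spread `s(Z) = ω + sup {|D| : D ⊆ Z a discrete subspace}`. -/
noncomputable def spread (Z : Type u) [TopologicalSpace Z] : Cardinal.{u} :=
  ℵ₀ + ⨆ D : {D : Set Z // DiscreteTopology D}, #(D : Set Z)

/-! ### Auxiliary results -/

section aux

/-- A space of countable spread has no uncountable discrete family. -/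
theorem no_discrete_family {Z : Type u} [TopologicalSpace Z] (hs : spread Z = ℵ₀)
    {J : Type} (f : J → Z) (W : J → Set Z) (hW : ∀ j, IsOpen (W j))
    (hf : ∀ i j, f i ∈ W j ↔ i = j) : Countable J := by
  have hinj : Function.Injective f := by
    intro i j hij
    have h1 : f i ∈ W i := (hf i i).2 rfl
    rw [hij] at h1
    exact ((hf j i).1 h1).symm
  have hd : DiscreteTopology (range f) := by
    rw [discreteTopology_iff_isOpen_singleton]
    rintro ⟨_, ⟨i, rfl⟩⟩
    have : ({⟨f i, mem_range_self i⟩} : Set (range f)) = Subtype.val ⁻¹' (W i) := by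
      ext ⟨_, ⟨j, rfl⟩⟩
      simp only [mem_singleton_iff, mem_preimage]
      rw [hf j i]
      exact ⟨fun h => hinj (Subtype.mk.inj h), fun h => by subst h; rfl⟩
    rw [this]
    exact (hW i).preimage continuous_subtype_val
  have hle : #(range f) ≤ ℵ₀ := by
    rw [← hs]
    have h1 : #(range f) ≤ ⨆ D : {D : Set Z // DiscreteTopology D}, #(D : Set Z) :=
      le_ciSup (f := fun D : {D : Set Z // DiscreteTopology D} => #(D : Set Z))
        Cardinal.bddAbove_of_small ⟨range f, hd⟩
    exact h1.trans (self_le_add_left _ _)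
  have : Countable (range f) := Cardinal.mk_le_aleph0_iff.1 hle
  have hinj' : Function.Injective (fun j : J => (⟨f j, mem_range_self j⟩ : range f)) := by
    intro i j hij
    exact hinj (Subtype.mk.inj hij)
  exact hinj'.countable

/-- Recursion along a well-order whose proper initial segments are countable. -/
theorem exists_seq {I : Type} {Z : Type u} [LinearOrder I] [WellFoundedLT I]
    (hI : ∀ i : I, (Iio i).Countable) (R : Set Z → Z → Prop)
    (h : ∀ S : Set Z, S.Countable → ∃ z, R S z) :
    ∃ g : I → Z, ∀ i, R (g '' Iio i) (g i) := by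
  classical
  have hc : ∀ (i : I) (r : (j : I) → j < i → Z),
      (range fun j : Iio i => r j.1 j.2).Countable := by
    intro i r
    have : Countable (Iio i) := (hI i).to_subtype
    exact countable_range _
  let step : (i : I) → ((j : I) → j < i → Z) → Z := fun i r =>
    (h (range fun j : Iio i => r j.1 j.2) (hc i r)).choose
  let g : I → Z := (wellFounded_lt (α := I)).fix step
  have hg : ∀ i, g i = step i (fun j _ => g j) := fun i =>
    (wellFounded_lt (α := I)).fix_eq step i
  refine ⟨g, fun i => ?_⟩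
  have hspec := (h (range fun j : Iio i => g j.1) (hc i (fun j _ => g j))).choose_spec
  have hr : (range fun j : Iio i => g j.1) = g '' Iio i := by
    rw [image_eq_range]
  have hgi : g i = (h (range fun j : Iio i => g j.1) (hc i (fun j _ => g j))).choose := hg i
  rw [← hgi] at hspec
  rw [hr] at hspec
  exact hspec

end aux

section core

variable {X : Type u} {I : Type} [LinearOrder I]

/-- The finite sets that are conditions. -/
def Good (x : I → X) (F : I → X → ℝ) (p : Finset I) : Prop :=
  ∀ a ∈ p, ∀ b ∈ p, a < b → F a (x b) ≤ 1 / 2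

theorem Good.mono {x : I → X} {F : I → X → ℝ} {p q : Finset I} (hq : Good x F q) (h : p ⊆ q) :
    Good x F p := fun a ha b hb hab => hq a (h ha) b (h hb) hab

theorem countable_bdd (hI : ∀ i : I, (Iio i).Countable) (hunc : ¬ Countable I)
    (S : Set I) (hS : S.Countable) : ∃ b, ∀ s ∈ S, s < b := by
  by_contra hcon
  push Not at hcon
  apply hunc
  have h1 : (univ : Set I) ⊆ ⋃ s ∈ S, Iic s := by
    intro b _
    obtain ⟨s, hs, hsb⟩ := hcon b
    exact mem_biUnion hs hsb
  have h2 : (⋃ s ∈ S, Iic s).Countable := by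
    refine hS.biUnion (fun s _ => ?_)
    have : Iic s = insert s (Iio s) := by
      ext t
      simp only [mem_Iic, mem_insert_iff, mem_Iio]
      exact le_iff_eq_or_lt
    rw [this]
    exact (hI s).insert s
  exact countable_univ_iff.1 (h2.mono h1)

variable [TopologicalSpace X] [WellFoundedLT I] (x : I → X) (F : I → X → ℝ)

/-- The non-ccc case. -/
theorem case_antichain (hI : ∀ i : I, (Iio i).Countable) (hunc : ¬ Countable I)
    (hc : ∀ i, Continuous (F i)) (h0 : ∀ i y, 0 ≤ F i y) (hle : ∀ i y, F i y ≤ 1)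
    (h1 : ∀ i, F i (x i) = 1) (hlt : ∀ i j, j < i → F i (x j) = 0)
    [DecidableEq I]
    (hA : ∃ A : Set (Finset I), ¬ A.Countable ∧ (∀ p ∈ A, Good x F p) ∧
      ∀ p ∈ A, ∀ q ∈ A, p ≠ q → ¬ Good x F (p ∪ q)) :
    ∃ (f : I → Cp X) (W : I → Set (Cp X)), (∀ j, IsOpen (W j)) ∧ ∀ i j, f i ∈ W j ↔ i = j := by
  classical
  -- choose an antichain with finite sets of minimal size
  let Q : ℕ → Prop := fun n => ∃ A : Set (Finset I), ¬ A.Countable ∧ (∀ p ∈ A, Good x F p) ∧
      (∀ p ∈ A, p.card = n) ∧ ∀ p ∈ A, ∀ q ∈ A, p ≠ q → ¬ Good x F (p ∪ q)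
  have hQ : ∃ n, Q n := by
    obtain ⟨A, hAc, hAg, hAi⟩ := hA
    by_contra hcon
    push Not at hcon
    apply hAc
    have hU : A = ⋃ n : ℕ, {p ∈ A | p.card = n} := by
      ext p
      simp
    rw [hU]
    refine countable_iUnion (fun n => ?_)
    by_contra hn
    refine hcon n ⟨{p ∈ A | p.card = n}, hn, fun p hp => hAg p hp.1, fun p hp => hp.2,
      fun p hp q hq hpq => hAi p hp.1 q hq.1 hpq⟩
  obtain ⟨A, hAc, hAg, hAn, hAi⟩ := Nat.find_spec hQ
  set n := Nat.find hQ with hn
  -- every point belongs to only countably many members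
  have hpt : ∀ c : I, {p ∈ A | c ∈ p}.Countable := by
    intro c
    by_contra hcon
    have hne : ({p ∈ A | c ∈ p} : Set (Finset I)).Nonempty := by
      rw [nonempty_iff_ne_empty]
      intro h
      rw [h] at hcon
      exact hcon countable_empty
    obtain ⟨p0, hp0, hcp0⟩ := hne
    have hnpos : 0 < n := by
      rw [← hAn p0 hp0]
      exact Finset.card_pos.2 ⟨c, hcp0⟩
    refine Nat.find_min hQ (m := n - 1) (by omega) ?_
    refine ⟨(fun p : Finset I => p.erase c) '' {p ∈ A | c ∈ p}, ?_, ?_, ?_, ?_⟩
    · intro hcount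
      apply hcon
      refine Set.countable_of_injective_of_countable_image ?_ hcount
      intro p hp q hq hpq
      have hpq' : p.erase c = q.erase c := hpq
      rw [← Finset.insert_erase hp.2, ← Finset.insert_erase hq.2, hpq']
    · rintro _ ⟨p, hp, rfl⟩
      exact (hAg p hp.1).mono (Finset.erase_subset _ _)
    · rintro _ ⟨p, hp, rfl⟩
      show (p.erase c).card = n - 1
      rw [Finset.card_erase_of_mem hp.2, hAn p hp.1]
    · rintro _ ⟨p, hp, rfl⟩ _ ⟨q, hq, rfl⟩ hpq hgood
      have hpq' : p ≠ q := by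
        rintro rfl
        exact hpq rfl
      apply hAi p hp.1 q hq.1 hpq'
      intro a ha b hb hab
      by_cases hac : a = c
      · subst hac
        rcases Finset.mem_union.1 hb with hb' | hb'
        · exact hAg p hp.1 a hp.2 b hb' hab
        · exact hAg q hq.1 a hq.2 b hb' hab
      · by_cases hbc : b = c
        · subst hbc
          rcases Finset.mem_union.1 ha with ha' | ha'
          · exact hAg p hp.1 a ha' b hp.2 hab
          · exact hAg q hq.1 a ha' b hq.2 hab
        · refine hgood a ?_ b ?_ hab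
          · rcases Finset.mem_union.1 ha with ha' | ha'
            · exact Finset.mem_union_left _ (Finset.mem_erase.2 ⟨hac, ha'⟩)
            · exact Finset.mem_union_right _ (Finset.mem_erase.2 ⟨hac, ha'⟩)
          · rcases Finset.mem_union.1 hb with hb' | hb'
            · exact Finset.mem_union_left _ (Finset.mem_erase.2 ⟨hbc, hb'⟩)
            · exact Finset.mem_union_right _ (Finset.mem_erase.2 ⟨hbc, hb'⟩)
  -- choose an increasing sequence of blocks
  obtain ⟨p, hp⟩ := exists_seq (I := I) (Z := Finset I) hI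
    (fun S z => z ∈ A ∧ z.Nonempty ∧ ∀ q ∈ S, ∀ a ∈ q, ∀ b ∈ z, a < b) (by
      intro S hS
      have hcU : (⋃ q ∈ S, (q : Set I)).Countable := hS.biUnion (fun q _ => q.countable_toSet)
      obtain ⟨b, hb⟩ := countable_bdd hI hunc _ hcU
      have hbad : (⋃ c ∈ Iio b, {p ∈ A | c ∈ p}).Countable := (hI b).biUnion (fun c _ => hpt c)
      have hbad' : ({∅} ∪ ⋃ c ∈ Iio b, {p ∈ A | c ∈ p} : Set (Finset I)).Countable :=
        (countable_singleton _).union hbad
      have hex : ∃ z ∈ A, z ∉ ({∅} ∪ ⋃ c ∈ Iio b, {p ∈ A | c ∈ p} : Set (Finset I)) := by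
        by_contra hcon
        push Not at hcon
        exact hAc (hbad'.mono hcon)
      obtain ⟨z, hzA, hz⟩ := hex
      refine ⟨z, hzA, ?_, ?_⟩
      · rw [Finset.nonempty_iff_ne_empty]
        intro h0
        exact hz (Or.inl h0)
      · intro q hq a ha c hc'
        have hab : a < b := hb a (mem_biUnion hq ha)
        have hcb : ¬ c < b := by
          intro hcb
          exact hz (Or.inr (mem_biUnion (show c ∈ Iio b from hcb) ⟨hzA, hc'⟩))
        exact lt_of_lt_of_le hab (not_lt.1 hcb))
  have hpA : ∀ i, p i ∈ A := fun i => (hp i).1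
  have hpn : ∀ i, (p i).Nonempty := fun i => (hp i).2.1
  have hplt : ∀ i j, i < j → ∀ a ∈ p i, ∀ b ∈ p j, a < b := fun i j hij a ha b hb =>
    (hp j).2.2 (p i) (mem_image_of_mem p hij) a ha b hb
  have hcross : ∀ i j, i < j → ∃ a ∈ p i, ∃ b ∈ p j, 1 / 2 < F a (x b) := by
    intro i j hij
    have hne : p i ≠ p j := by
      intro h
      obtain ⟨a, ha⟩ := hpn i
      exact lt_irrefl a (hplt i j hij a ha a (h ▸ ha))
    have hng := hAi (p i) (hpA i) (p j) (hpA j) hne
    unfold Good at hng
    push Not at hng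
    obtain ⟨a, ha, b, hb, hab, hF⟩ := hng
    rcases Finset.mem_union.1 ha with ha' | ha' <;> rcases Finset.mem_union.1 hb with hb' | hb'
    · exact absurd (hAg (p i) (hpA i) a ha' b hb' hab) (not_le.2 hF)
    · exact ⟨a, ha', b, hb', hF⟩
    · exact absurd hab (not_lt.2 (hplt i j hij b hb' a ha').le)
    · exact absurd (hAg (p j) (hpA j) a ha' b hb' hab) (not_le.2 hF)
  have hnpos : 0 < n := by
    have : Nonempty I := by
      by_contra hcon
      rw [not_nonempty_iff] at hcon
      exact hunc inferInstance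
    obtain ⟨i⟩ := this
    rw [← hAn (p i) (hpA i)]
    exact Finset.card_pos.2 (hpn i)
  -- the successor function
  have hsucc : ∀ i : I, ∃ s, i < s ∧ ∀ j, i < j → s ≤ j := by
    intro i
    obtain ⟨b, hb⟩ := countable_bdd hI hunc {i} (countable_singleton i)
    have hne : (Ioi i).Nonempty := ⟨b, hb i rfl⟩
    refine ⟨(wellFounded_lt (α := I)).min (Ioi i) hne,
      (wellFounded_lt (α := I)).min_mem (Ioi i) hne, fun j hj => ?_⟩
    exact not_lt.1 ((wellFounded_lt (α := I)).not_lt_min (Ioi i) hj)
  choose s hs1 hs2 using hsucc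
  let S : I → X → ℝ := fun i y => ∑ a ∈ p i, F a y
  have hScont : ∀ i, Continuous (S i) := fun i => continuous_finsetSum _ (fun a _ => hc a)
  have hSle : ∀ i y, S i y ≤ n := by
    intro i y
    calc S i y ≤ ∑ a ∈ p i, (1 : ℝ) := Finset.sum_le_sum (fun a _ => hle a y)
      _ = n := by
        rw [Finset.sum_const, hAn (p i) (hpA i)]
        simp
  have hSge : ∀ i, ∀ a ∈ p i, ∀ y, F a y ≤ S i y := by
    intro i a ha y
    exact Finset.single_le_sum (f := fun a => F a y) (fun b _ => h0 b y) ha
  have hSzero : ∀ i j, i < j → ∀ b ∈ p i, S j (x b) = 0 := by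
    intro i j hij b hb
    exact Finset.sum_eq_zero (fun a ha => hlt a b (hplt i j hij b hb a ha))
  have hnR : (1 : ℝ) ≤ n := by exact_mod_cast hnpos
  refine ⟨fun i => ⟨fun y => S i y - 4 * n * S (s i) y,
      (hScont i).sub (continuous_const.mul (hScont (s i)))⟩,
    fun j => {g | ∀ b ∈ p j, 1 / 2 < g.1 (x b)}, ?_, ?_⟩
  · intro j
    show IsOpen {g : Cp X | ∀ b ∈ p j, 1 / 2 < g.1 (x b)}
    have : {g : Cp X | ∀ b ∈ p j, 1 / 2 < g.1 (x b)} =
        ⋂ b ∈ p j, {g : Cp X | 1 / 2 < g.1 (x b)} := by
      ext g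
      simp
    rw [this]
    refine isOpen_biInter_finset (fun b _ => ?_)
    have hev : Continuous (fun g : Cp X => g.1 (x b)) :=
      (continuous_apply (x b)).comp continuous_subtype_val
    exact isOpen_lt continuous_const hev
  · intro i j
    constructor
    · intro hmem
      by_contra hne
      rcases lt_or_gt_of_ne hne with hij | hji
      · -- `i < j`
        rcases (hs2 i j hij).eq_or_lt with hEq | hLt
        · obtain ⟨b, hb⟩ := hpn j
          have hmb : 1 / 2 < S i (x b) - 4 * n * S (s i) (x b) := hmem b hb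
          have hge : 1 ≤ S (s i) (x b) := by
            rw [← h1 b]
            exact hSge (s i) b (hEq ▸ hb) (x b)
          have := hSle i (x b)
          nlinarith
        · obtain ⟨a, ha, b, hb, hab⟩ := hcross (s i) j hLt
          have hmb : 1 / 2 < S i (x b) - 4 * n * S (s i) (x b) := hmem b hb
          have hge : 1 / 2 < S (s i) (x b) := lt_of_lt_of_le hab (hSge (s i) a ha (x b))
          have := hSle i (x b)
          nlinarith
      · -- `j < i`
        obtain ⟨b, hb⟩ := hpn j
        have hmb : 1 / 2 < S i (x b) - 4 * n * S (s i) (x b) := hmem b hb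
        rw [hSzero j i hji b hb, hSzero j (s i) (hji.trans (hs1 i)) b hb] at hmb
        norm_num at hmb
    · rintro rfl
      intro b hb
      show 1 / 2 < S i (x b) - 4 * n * S (s i) (x b)
      rw [hSzero i (s i) (hs1 i) b hb]
      have : 1 ≤ S i (x b) := by
        rw [← h1 b]
        exact hSge i b hb (x b)
      linarith

/-- The ccc case. -/
theorem case_ccc (hMA : MAFor ℵ₁) (hcard : #I ≤ ℵ₁)
    (hI : ∀ i : I, (Iio i).Countable) (hunc : ¬ Countable I)
    (hc : ∀ i, Continuous (F i))
    (h1 : ∀ i, F i (x i) = 1) (hlt : ∀ i j, j < i → F i (x j) = 0)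
    [DecidableEq I]
    (hA : ∀ A : Set (Finset I), (∀ p ∈ A, Good x F p) →
      (∀ p ∈ A, ∀ q ∈ A, p ≠ q → ¬ Good x F (p ∪ q)) → A.Countable) :
    ∃ (J : Set I) (f : J → Cp X) (W : J → Set (Cp X)), ¬ Countable J ∧
      (∀ j, IsOpen (W j)) ∧ ∀ i j, f i ∈ W j ↔ i = j := by
  classical
  -- a condition below which all the sets `D_b` are dense
  have hq : ∃ q : Finset I, Good x F q ∧ ∀ b : I, ∀ p, Good x F p → q ⊆ p →
      ∃ p', Good x F p' ∧ p ⊆ p' ∧ ∃ c ∈ p', b ≤ c := by
    by_contra hcon
    push Not at hcon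
    have hsing : ∀ a : I, Good x F {a} := by
      intro a c hc' d hd hcd
      rw [Finset.mem_singleton] at hc' hd
      subst hc' hd
      exact absurd hcd (lt_irrefl _)
    choose b r hr hsub hbd using fun a : I => hcon {a} (hsing a)
    have har : ∀ a, a ∈ r a := fun a => hsub a (Finset.mem_singleton_self a)
    obtain ⟨g, hg⟩ := exists_seq (I := I) (Z := I) hI (fun S z => ∀ s ∈ S, b s ≤ z) (by
      intro S hS
      obtain ⟨z, hz⟩ := countable_bdd hI hunc (b '' S) (hS.image b)
      exact ⟨z, fun s hs => (hz (b s) (mem_image_of_mem b hs)).le⟩)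
    have hg' : ∀ i j, i < j → b (g i) ≤ g j := fun i j hij => hg j (g i) (mem_image_of_mem g hij)
    have hinc : ∀ i j, i < j → ¬ Good x F (r (g i) ∪ r (g j)) := by
      intro i j hij hgood
      have := hbd (g i) (r (g i) ∪ r (g j)) hgood Finset.subset_union_left (g j)
        (Finset.mem_union_right _ (har (g j)))
      exact absurd (hg' i j hij) (not_le.2 this)
    have hinj : Function.Injective (fun i => r (g i)) := by
      intro i j hij
      have hij' : r (g i) = r (g j) := hij
      by_contra hne
      rcases lt_or_gt_of_ne hne with h | h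
      · apply hinc i j h
        rw [hij', Finset.union_self]
        exact hr (g j)
      · apply hinc j i h
        rw [hij', Finset.union_self]
        exact hr (g j)
    have hcount := hA (range fun i => r (g i)) (by
      rintro _ ⟨i, rfl⟩
      exact hr (g i)) (by
      rintro _ ⟨i, rfl⟩ _ ⟨j, rfl⟩ hne
      have hne' : i ≠ j := by
        rintro rfl
        exact hne rfl
      rcases lt_or_gt_of_ne hne' with h | h
      · exact hinc i j h
      · have := hinc j i h
        rwa [Finset.union_comm] at this)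
    apply hunc
    have : Countable (range fun i => r (g i)) := hcount.to_subtype
    have hinj' : Function.Injective
        (fun i : I => (⟨r (g i), mem_range_self i⟩ : range fun i => r (g i))) := by
      intro i j hij
      exact hinj (Subtype.mk.inj hij)
    exact hinj'.countable
  obtain ⟨q, hqg, hqd⟩ := hq
  -- apply Martin's axiom below `q`
  let P : Type := {p : Finset I // Good x F p ∧ q ⊆ p}ᵒᵈ
  have : Nonempty P := ⟨OrderDual.toDual ⟨q, hqg, Finset.Subset.refl q⟩⟩
  have hccc : CCC P := by
    intro A hAi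
    have himg : ((fun p : P => (OrderDual.ofDual p).1) '' A).Countable := by
      apply hA
      · rintro _ ⟨p, _, rfl⟩
        exact (OrderDual.ofDual p).2.1
      · rintro _ ⟨p, hp, rfl⟩ _ ⟨p', hp', rfl⟩ hne hgood
        have hne' : p ≠ p' := by
          rintro rfl
          exact hne rfl
        apply hAi p hp p' hp' hne'
        refine ⟨OrderDual.toDual ⟨(OrderDual.ofDual p).1 ∪ (OrderDual.ofDual p').1, hgood,
          (OrderDual.ofDual p).2.2.trans Finset.subset_union_left⟩, ?_, ?_⟩
        · show (OrderDual.ofDual p).1 ⊆ (OrderDual.ofDual p).1 ∪ (OrderDual.ofDual p').1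
          exact Finset.subset_union_left
        · show (OrderDual.ofDual p').1 ⊆ (OrderDual.ofDual p).1 ∪ (OrderDual.ofDual p').1
          exact Finset.subset_union_right
    refine Set.countable_of_injective_of_countable_image ?_ himg
    intro p _ p' _ hpp
    exact Subtype.ext hpp
  obtain ⟨G, hG⟩ := hMA P hccc
    (range fun b : I => {p : P | ∃ c ∈ (OrderDual.ofDual p).1, b ≤ c})
    (mk_range_le.trans hcard) (by
      rintro _ ⟨b, rfl⟩ p
      obtain ⟨p', hp'g, hpp', c, hc', hbc⟩ :=
        hqd b (OrderDual.ofDual p).1 (OrderDual.ofDual p).2.1 (OrderDual.ofDual p).2.2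
      exact ⟨OrderDual.toDual ⟨p', hp'g, (OrderDual.ofDual p).2.2.trans hpp'⟩,
        ⟨c, hc', hbc⟩, hpp'⟩)
  let J : Set I := {c | ∃ p ∈ G, c ∈ (OrderDual.ofDual p).1}
  have hJ : ¬ Countable J := by
    intro hcount
    obtain ⟨b, hb⟩ := countable_bdd hI hunc J (countable_coe_iff.1 hcount)
    obtain ⟨p, hpG, c, hcp, hbc⟩ := hG _ (mem_range_self b)
    exact absurd (hb c ⟨p, hpG, hcp⟩) (not_lt.2 hbc)
  have hJlt : ∀ a ∈ J, ∀ b ∈ J, a < b → F a (x b) ≤ 1 / 2 := by
    rintro a ⟨p, hpG, hap⟩ b ⟨p', hpG', hbp⟩ hab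
    obtain ⟨r, hrG, hrp, hrp'⟩ := G.directed p hpG p' hpG'
    exact (OrderDual.ofDual r).2.1 a (hrp hap) b (hrp' hbp) hab
  refine ⟨J, fun i => ⟨F i.1, hc i.1⟩, fun j => {g | 1 / 2 < g.1 (x j.1)}, hJ, ?_, ?_⟩
  · intro j
    have hev : Continuous (fun g : Cp X => g.1 (x j.1)) :=
      (continuous_apply (x j.1)).comp continuous_subtype_val
    exact isOpen_lt continuous_const hev
  · rintro ⟨i, hi⟩ ⟨j, hj⟩
    constructor
    · intro hmem
      have hmem' : 1 / 2 < F i (x j) := hmem
      by_contra hne
      have hne' : i ≠ j := fun h => hne (Subtype.ext h)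
      rcases lt_or_gt_of_ne hne' with h | h
      · exact absurd (hJlt i hi j hj h) (not_le.2 hmem')
      · rw [hlt i j h] at hmem'
        norm_num at hmem'
    · intro h
      have h' : i = j := congrArg Subtype.val h
      subst h'
      show 1 / 2 < F i (x i)
      rw [h1 i]
      norm_num

end core

/-- The main argument, from `MA(ℵ₁)`. -/
theorem hereditarily_separable (hMA : MAFor ℵ₁) (X : Type u) [TopologicalSpace X] [T35Space X]
    (hs : spread (Cp X) = ℵ₀) (Y : Set X) : SeparableSpace Y := by
  classical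
  by_contra hY
  let I : Type := (ℵ₁ : Cardinal.{0}).ord.ToType
  have hcardI : #I = ℵ₁ := mk_ord_toType _
  have hI : ∀ i : I, (Iio i).Countable := by
    intro i
    have h : #(Iio i) < #I := mk_Iio_lt i (by
      rw [hcardI]
      exact (Ordinal.type_toType _).symm)
    rw [hcardI] at h
    rw [← Cardinal.le_aleph0_iff_set_countable]
    exact lt_aleph_one_iff.1 h
  have hunc : ¬ Countable I := by
    intro h
    have h1 : #I ≤ ℵ₀ := mk_le_aleph0_iff.2 h
    rw [hcardI] at h1
    exact absurd h1 (not_le.2 aleph0_lt_aleph_one)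
  -- the left-separated sequence
  obtain ⟨y, hy⟩ := exists_seq (I := I) (Z := Y) hI (fun S z => z ∉ closure S) (by
    intro S hS
    by_contra hcon
    push Not at hcon
    exact hY ⟨⟨S, hS, hcon⟩⟩)
  let x : I → X := fun i => (y i : X)
  have hx : ∀ i, x i ∉ closure (x '' Iio i) := by
    intro i hi
    apply hy i
    rw [closure_subtype, image_image]
    exact hi
  have hF : ∀ i : I, ∃ f : X → ℝ, Continuous f ∧ (∀ z, 0 ≤ f z) ∧ (∀ z, f z ≤ 1) ∧
      f (x i) = 1 ∧ ∀ j, j < i → f (x j) = 0 := by
    intro i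
    obtain ⟨f, hfc, hf0, hf1⟩ :=
      CompletelyRegularSpace.completely_regular (x i) (closure (x '' Iio i)) isClosed_closure (hx i)
    refine ⟨fun z => 1 - (f z : ℝ), continuous_const.sub (continuous_subtype_val.comp hfc),
      fun z => sub_nonneg.2 (f z).2.2, fun z => by linarith [(f z).2.1], ?_, ?_⟩
    · simp [hf0]
    · intro j hj
      have : f (x j) = 1 := hf1 (subset_closure (mem_image_of_mem x hj))
      simp [this]
  choose F hFc hF0 hFle hF1 hFlt using hF
  by_cases hA : ∃ A : Set (Finset I), ¬ A.Countable ∧ (∀ p ∈ A, Good x F p) ∧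
      ∀ p ∈ A, ∀ q ∈ A, p ≠ q → ¬ Good x F (p ∪ q)
  · obtain ⟨f, W, hW, hfW⟩ := case_antichain x F hI hunc hFc hF0 hFle hF1 hFlt hA
    exact hunc (no_discrete_family hs f W hW hfW)
  · push Not at hA
    obtain ⟨J, f, W, hJ, hW, hfW⟩ := case_ccc x F hMA hcardI.le hI hunc hFc hF1 hFlt (by
      intro A h1 h2
      by_contra hcount
      obtain ⟨p, hp, q, hq, hpq, hgood⟩ := hA A hcount h1
      exact h2 p hp q hq hpq hgood)
    exact hJ (no_discrete_family hs f W hW hfW)

/-- Assume Martin's Axiom and the negation of the continuum hypothesis.  Then every Tychonoff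
space `X` such that `C_p(X)` has countable spread is separable, and even hereditarily separable. -/
theorem result (hMA : MartinsAxiom) (hCH : (ℵ₁ : Cardinal.{0}) < 𝔠)
    (X : Type u) [TopologicalSpace X] [T35Space X] (hs : spread (Cp X) = ℵ₀) :
    SeparableSpace X ∧ ∀ Y : Set X, SeparableSpace Y := by
  have h := hereditarily_separable (hMA ℵ₁ hCH) X hs
  refine ⟨?_, h⟩
  have hu := h univ
  have hsurj : Function.Surjective (fun y : (univ : Set X) => (y : X)) :=
    fun y => ⟨⟨y, mem_univ y⟩, rfl⟩
  exact hsurj.denseRange.separableSpace continuous_subtype_val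

end Pool.Agent.Results.MP_81e7df_gt.HereditarySep
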